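import Pool.Agent.helper24.NR.Spec

set_option autoImplicit false

namespace Pool.Agent.NR

open Finset

theorem QBU_adj {V F : Type} {vs : F → Finset V} {es : F → Finset (Sym2 V)} (hC : Cfg vs es)
    {a b : V} {m h : F} (hm : s(a, b) ∈ es m) (ha : a ∈ vs h) (hb : b ∈ vs h) : s(a, b) ∈ es h := by
  by_cases he : h = m
  · rw [he]
    exact hm
  · obtain ⟨h1, h2, h3⟩ := hC.ends m a b hm
    exact hC.meet2 h m he a b h3 ha hb h1 h2

theorem QBU : QBU_stmt := by
  intro V F vs es x y v u f g k l hC hxy hno hA hk hl hxf hyg hf hg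
  obtain ⟨hvf, huf, hvu⟩ := hC.ends f v u hf
  obtain ⟨hvg, hug, _⟩ := hC.ends g v u hg
  obtain ⟨_, _, hxv⟩ := hC.ends k x v hk
  obtain ⟨_, _, hyu⟩ := hC.ends l y u hl
  have hxu : x ≠ u := by
    intro h
    exact hno g (h ▸ hug) hyg
  have hvy : v ≠ y := by
    intro h
    exact hno f hxf (h ▸ hvf)
  have hl' : s(u, y) ∈ es l := by
    rw [Sym2.eq_swap]
    exact hl
  have h1 : (gr es).Adj x v := ⟨hxv, k, hk⟩
  have h2 : (gr es).Adj v u := ⟨hvu, f, hf⟩
  have h3 : (gr es).Adj u y := ⟨hyu.symm, l, hl'⟩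
  let p : (gr es).Walk x y := SimpleGraph.Walk.cons h1 (SimpleGraph.Walk.cons h2
    (SimpleGraph.Walk.cons h3 SimpleGraph.Walk.nil))
  refine ⟨p, ?_, ?_⟩
  · rw [SimpleGraph.Walk.isPath_def]
    simp only [p, SimpleGraph.Walk.support_cons, SimpleGraph.Walk.support_nil, List.nodup_cons,
      List.mem_cons, List.not_mem_nil, or_false, not_or, List.nodup_nil, and_true, not_false_eq_true]
    exact ⟨⟨hxv, hxu, hxy⟩, ⟨hvu, hvy⟩, hyu.symm⟩
  · intro h i j hij hj hi hj' m him hmj
    have hlen : p.length = 3 := rfl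
    rw [hlen] at hj
    have e01 : x ∈ vs h → v ∈ vs h → s(x, v) ∈ es h := fun a b => QBU_adj hC hk a b
    have e12 : v ∈ vs h → u ∈ vs h → s(v, u) ∈ es h := fun a b => QBU_adj hC hf a b
    have e23 : u ∈ vs h → y ∈ vs h → s(u, y) ∈ es h := fun a b => QBU_adj hC hl' a b
    have e02 : x ∈ vs h → u ∈ vs h → s(x, v) ∈ es h ∧ s(v, u) ∈ es h := by
      intro a b
      have he : h = f := by
        by_contra he
        exact hA u h l (hC.meet2 h f he x u hxu a b hxf huf) hl
      subst he
      exact ⟨QBU_adj hC hk a hvf, hf⟩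
    have e13 : v ∈ vs h → y ∈ vs h → s(v, u) ∈ es h ∧ s(u, y) ∈ es h := by
      intro a b
      have he : h = g := by
        by_contra he
        have := hC.meet2 h g he v y hvy a b hvg hyg
        rw [Sym2.eq_swap] at this
        exact hA v k h hk this
      subst he
      exact ⟨hg, QBU_adj hC hl' hug b⟩
    have e03 : x ∈ vs h → y ∈ vs h → False := fun a b => hno h a b
    have g0 : p.getVert 0 = x := rfl
    have g1 : p.getVert 1 = v := rfl
    have g2 : p.getVert 2 = u := rfl
    have g3 : p.getVert 3 = y := rfl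
    have hi3 : i < 3 := by omega
    interval_cases j <;> interval_cases i <;> first | omega | skip
    · have : m = 0 := by omega
      subst this
      exact e01 hi hj'
    · have : m = 0 ∨ m = 1 := by omega
      rcases this with rfl | rfl
      · exact (e02 hi hj').1
      · exact (e02 hi hj').2
    · have : m = 1 := by omega
      subst this
      exact e12 hi hj'
    · exact absurd (e03 hi hj') not_false
    · have : m = 1 ∨ m = 2 := by omega
      rcases this with rfl | rfl
      · exact (e13 hi hj').1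
      · exact (e13 hi hj').2
    · have : m = 2 := by omega
      subst this
      exact e23 hi hj'

end Pool.Agent.NR
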